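import Pool.Agent.Q51.SE.Stm
import Pool.Agent.Q91.EL.Small

/-!
# Project SE, job COREQ: the upper bound from the large sieve
-/

set_option autoImplicit false

namespace Pool.Agent.Q277.SE

open Pool.Agent.Q51.SE NumberField IsDedekindDomain Finset
open Pool.Agent.Q51.EL (Abv N1 pr GN Gf Setup Ty1 S_SIEVE S_SUMS S_RAM S_M1 S_M2)

open Classical in
/-- the main upper bound for general densities -/
theorem core_gen (h1 : S_SIEVE) (h2 : S_SUMS) (h4 : S_RAM) (h5 : S_M1)
    (L : Type) [Field L] [NumberField L] (hn : 1 ≤ Module.finrank ℚ L) (B' : ℕ) (hB'0 : B' ≠ 0)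
    (d g : ℕ → ℝ) (c6 C6 : ℝ) (hc6 : 0 < c6) (hg0 : ∀ l : ℕ, 0 ≤ g l ∧ g l ≤ 1)
    (hd : ∀ l : ℕ, l.Prime → ¬ l ∣ B' → (d l = 0 ∨ 2 / 3 ≤ d l) ∧ d l ≤ Module.finrank ℚ L ∧
      (N1 L l : ℝ) - (if 1 ≤ N1 L l then 1 else 0) + g l ≤ d l)
    (hgain : ∀ Y : ℝ, 3 ≤ Y → c6 * Real.log (Real.log Y) - C6 ≤ ∑ l ∈ pr Y, g l / l) :
    ∃ c C : ℝ, 0 < c ∧ ∀ T : Set (𝓞 L), (∀ l : ℕ, l.Prime → ¬ l ∣ B' →
      (((Ideal.Quotient.mk (Ideal.span {(l : 𝓞 L)}) '' T).ncard : ℕ) : ℝ) ≤
        (l : ℝ) ^ Module.finrank ℚ L *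
          (1 - d l / l + (Module.finrank ℚ L : ℝ) ^ 2 / (l : ℝ) ^ 2)) →
    ∀ Y : ℝ, 3 ≤ Y → {β ∈ T | ∀ σ : L →+* ℂ, ‖σ (β : L)‖ ≤ Y}.Finite ∧
      (({β ∈ T | ∀ σ : L →+* ℂ, ‖σ (β : L)‖ ≤ Y}.ncard : ℕ) : ℝ) ≤
        C * Y ^ Module.finrank ℚ L * Real.exp (GN L Y) * Real.log Y ^ (-(1 + c)) := by
  set n := Module.finrank ℚ L with hndef
  obtain ⟨Cs, hCs, hsieve⟩ := h1 L
  obtain ⟨-, hN1le⟩ := h4 L
  have hn0 : (0:ℝ) < n := by exact_mod_cast (by omega : 0 < n)
  have hn1 : (1:ℝ) ≤ n := by exact_mod_cast hn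
  obtain ⟨c2, hc2, hsums⟩ := h2 n hn0
  obtain ⟨C5, hmert⟩ := h5 L (c6 / 2) (by positivity)
  have hsumm : Summable (fun n : ℕ => 1 / (n : ℝ) ^ 2) :=
    Real.summable_one_div_nat_pow.2 (by norm_num)
  set K2 : ℝ := ∑' n : ℕ, 1 / (n : ℝ) ^ 2 with hK2
  set c : ℝ := c6 / 2 with hc
  have hc0 : 0 < c := by positivity
  -- the constant
  set R : ℝ := (1 + c) * Real.log 2 + C5 + C6 + n * (2 * n ^ 2 + B') + n ^ 2 * K2 with hR
  refine ⟨c, Cs / c2 * Real.exp R + Cs * Real.log 9 ^ (1 + c), hc0, ?_⟩
  intro T hT Y hY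
  have hY0 : 0 < Y := by linarith
  have hlogY1 : 1 ≤ Real.log Y := by
    rw [Real.le_log_iff_exp_le hY0]
    have := Real.exp_one_lt_d9; linarith
  have hlogY : 0 < Real.log Y := by linarith
  have hGN0 : 0 ≤ GN L Y := by unfold GN; exact Finset.sum_nonneg fun q _ => by positivity
  have hlog9 : 0 < Real.log 9 := Real.log_pos (by norm_num)
  have hYn : 0 < Y ^ n := by positivity
  set M : ℝ := (({β ∈ T | ∀ σ : L →+* ℂ, ‖σ (β : L)‖ ≤ Y}.ncard : ℕ) : ℝ) with hM
  have hM0 : 0 ≤ M := Nat.cast_nonneg _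
  have htriv := hsieve Y ∅ T (fun _ => 1) (by linarith) (by simp) (by simp)
  refine ⟨htriv.1, ?_⟩
  have hlp : 0 < Real.log Y ^ (-(1 + c)) := Real.rpow_pos_of_pos hlogY _
  have hconst0 : 0 ≤ Cs / c2 * Real.exp R := by positivity
  have hconst1 : 0 ≤ Cs * Real.log 9 ^ (1 + c) := by positivity
  rcases lt_or_ge Y 9 with hY9 | hY9
  · -- small Y
    have h7 : M ≤ Cs * Y ^ n := by
      have := htriv.2
      rw [Finset.powerset_empty] at this
      have h8 : ({∅} : Finset (Finset ℕ)).filter
          (fun D => (((∏ t ∈ D, t : ℕ) : ℝ)) ^ 2 ≤ Y) = {∅} := by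
        rw [Finset.filter_eq_self]
        intro D hD
        rw [mem_singleton] at hD
        subst hD
        simp; linarith
      rw [h8] at this
      simpa using this
    have h8 : 1 ≤ Real.log 9 ^ (1 + c) * Real.log Y ^ (-(1 + c)) := by
      rw [Real.rpow_neg hlogY.le, ← div_eq_mul_inv, one_le_div (by positivity)]
      exact Real.rpow_le_rpow hlogY.le (Real.log_le_log hY0 hY9.le) (by linarith)
    have h9 : 1 ≤ Real.exp (GN L Y) := Real.one_le_exp hGN0
    calc M ≤ Cs * Y ^ n := h7
      _ ≤ Cs * Y ^ n * (Real.exp (GN L Y) * (Real.log 9 ^ (1 + c) * Real.log Y ^ (-(1 + c)))) := by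
          refine le_mul_of_one_le_right (by positivity) ?_
          nlinarith
      _ = Cs * Real.log 9 ^ (1 + c) * Y ^ n * Real.exp (GN L Y) * Real.log Y ^ (-(1 + c)) := by
          ring
      _ ≤ _ := by
          refine mul_le_mul_of_nonneg_right (mul_le_mul_of_nonneg_right
            (mul_le_mul_of_nonneg_right ?_ hYn.le) (Real.exp_pos _).le) hlp.le
          linarith
  · -- large Y
    set W : ℝ := √Y with hW
    have hW3 : 3 ≤ W := by rw [hW]; apply Real.le_sqrt_of_sq_le; linarith
    have hWsq : W ^ 2 = Y := Real.sq_sqrt hY0.le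
    have hW0 : 0 < W := by linarith
    set Q : ℕ := ⌊W⌋₊ with hQ
    have hQ1 : 1 ≤ Q := Nat.le_floor (by push_cast; linarith)
    set P : Finset ℕ := (pr W).filter (fun l => 2 * n ^ 2 < l ∧ ¬ l ∣ B' ∧ d l ≠ 0) with hP
    set η : ℕ → ℝ := fun l => d l / l - (n:ℝ) ^ 2 / (l:ℝ) ^ 2 with hη
    have hprW : ∀ l ∈ pr W, l.Prime ∧ l ≤ Q := by
      intro l hl
      unfold pr at hl
      rw [mem_filter, mem_Icc] at hl
      exact ⟨hl.2, hl.1.2⟩
    have hPpr : ∀ l ∈ P, l.Prime := fun l hl => (hprW l (mem_filter.1 hl).1).1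
    have hPQ : ∀ l ∈ P, l ≤ Q := fun l hl => (hprW l (mem_filter.1 hl).1).2
    have hηprop : ∀ l ∈ P, 0 < η l ∧ η l ≤ n / l := by
      intro l hl
      have hl0 : (0:ℝ) < l := by exact_mod_cast (hPpr l hl).pos
      have hlpr := hPpr l hl
      rw [hP, mem_filter] at hl
      obtain ⟨-, hl1, hl2, hl4⟩ := hl
      have hl1' : 2 * (n:ℝ) ^ 2 < l := by exact_mod_cast hl1
      obtain ⟨k1, k2, -⟩ := hd l hlpr hl2
      have hone : (2:ℝ) / 3 ≤ d l := by
        rcases k1 with h | h
        · exact absurd h hl4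
        · exact h
      constructor
      · simp only [hη]
        have h10 : (n:ℝ) ^ 2 / (l:ℝ) ^ 2 < (2 / 3) / l := by
          rw [div_lt_div_iff₀ (by positivity) hl0]; nlinarith
        have h11 : (2 / 3) / (l:ℝ) ≤ d l / l := div_le_div_of_nonneg_right hone hl0.le
        linarith
      · simp only [hη]
        have h10 : 0 ≤ (n:ℝ) ^ 2 / (l:ℝ) ^ 2 := by positivity
        have h11 : d l / l ≤ (n:ℝ) / l := div_le_div_of_nonneg_right k2 hl0.le
        linarith
    have hs := hsieve Y P T η (by linarith) hPpr (fun l hl => ⟨(hηprop l hl).1, by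
      have hl' := hl
      rw [hP, mem_filter] at hl'
      obtain ⟨-, hl1, hl2, hl4⟩ := hl'
      have h12 := hT l (hPpr l hl) hl2
      refine h12.trans (le_of_eq ?_)
      simp only [hη, ← hndef]; ring⟩)
    have hss := hsums Q P η hQ1 hPpr hPQ (fun l hl => ⟨(hηprop l hl).1.le, (hηprop l hl).2⟩)
    have hfilter : P.powerset.filter (fun D => ∏ t ∈ D, t ≤ Q) =
        P.powerset.filter (fun D => (((∏ t ∈ D, t : ℕ) : ℝ)) ^ 2 ≤ Y) := by
      refine Finset.filter_congr fun D _ => ?_
      rw [hQ, Nat.le_floor_iff hW0.le]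
      constructor
      · intro h
        rw [← hWsq]
        exact pow_le_pow_left₀ (Nat.cast_nonneg _) h 2
      · intro h
        rw [← hWsq] at h
        exact le_of_sq_le_sq h hW0.le
    rw [hfilter] at hss
    -- lower bound of the sum of η
    have hPsub : P ⊆ pr W := Finset.filter_subset _ _
    set E : ℕ → ℝ := fun l => (N1 L l : ℝ) - (if 1 ≤ N1 L l then 1 else 0) + g l with hE
    have hlow : (1 + c) * Real.log (Real.log Y) - GN L Y - R ≤ ∑ l ∈ P, η l := by
      -- from P to pr W
      have e1 : ∑ l ∈ P, η l = ∑ l ∈ P, d l / (l:ℝ) -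
          ∑ l ∈ P, (n:ℝ) ^ 2 / (l:ℝ) ^ 2 := by
        rw [← Finset.sum_sub_distrib]
      have e2 : ∑ l ∈ P, (n:ℝ) ^ 2 / (l:ℝ) ^ 2 ≤ n ^ 2 * K2 := by
        have : ∑ l ∈ P, (n:ℝ) ^ 2 / (l:ℝ) ^ 2 = n ^ 2 * ∑ l ∈ P, 1 / (l:ℝ) ^ 2 := by
          rw [Finset.mul_sum]; exact Finset.sum_congr rfl fun l _ => by ring
        rw [this]
        exact mul_le_mul_of_nonneg_left (hsumm.sum_le_tsum _ fun n _ => by positivity)
          (by positivity)
      have e2b : ∑ l ∈ P, E l / (l:ℝ) ≤ ∑ l ∈ P, d l / (l:ℝ) := by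
        refine Finset.sum_le_sum fun l hl => ?_
        have hl0 : (0:ℝ) < l := by exact_mod_cast (hPpr l hl).pos
        have hlpr := hPpr l hl
        rw [hP, mem_filter] at hl
        exact div_le_div_of_nonneg_right (hd l hlpr hl.2.2.1).2.2 hl0.le
      have e3 : ∑ l ∈ pr W, E l / (l:ℝ) ≤
          ∑ l ∈ P, E l / (l:ℝ) + n * (2 * n ^ 2 + B') := by
        rw [← Finset.sum_sdiff hPsub, add_comm]
        refine add_le_add le_rfl ?_
        have e4 : ∀ l ∈ pr W \ P, E l / (l:ℝ) ≤
            if l ∈ Icc 1 (2 * n ^ 2) ∪ Icc 1 B' then (n:ℝ) else 0 := by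
          intro l hl
          rw [mem_sdiff] at hl
          obtain ⟨hl1, hl2⟩ := hl
          obtain ⟨hlp, -⟩ := hprW l hl1
          have hl0 : (0:ℝ) < l := by exact_mod_cast hlp.pos
          have hl2' : (2:ℝ) ≤ l := by exact_mod_cast hlp.two_le
          have hNn : (N1 L l : ℝ) ≤ n := by exact_mod_cast hN1le l hlp
          have hgen : E l / (l:ℝ) ≤ (n:ℝ) := by
            rw [div_le_iff₀ hl0]
            have hg1 := (hg0 l).2
            have : E l ≤ n + 1 := by
              simp only [hE]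
              split_ifs <;> linarith
            nlinarith
          split_ifs with hmem
          · exact hgen
          · simp only [mem_union, mem_Icc, not_or, not_and, not_le] at hmem
            obtain ⟨m1, m2⟩ := hmem
            have m1' := m1 hlp.one_lt.le
            have m2' := m2 hlp.one_lt.le
            have hdiv : ¬ l ∣ B' := fun h =>
              absurd (Nat.le_of_dvd (Nat.pos_of_ne_zero hB'0) h) (not_le.2 m2')
            have hd0 : d l = 0 := by
              by_contra hcon
              exact hl2 (mem_filter.2 ⟨hl1, m1', hdiv, hcon⟩)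
            have hz : E l ≤ 0 := by
              have := (hd l hlp hdiv).2.2
              rw [hd0] at this
              exact this
            exact div_nonpos_of_nonpos_of_nonneg hz hl0.le
        refine (Finset.sum_le_sum e4).trans ?_
        rw [← Finset.sum_filter]
        rw [Finset.sum_const, nsmul_eq_mul]
        have hcard : ((pr W \ P).filter (fun l => l ∈ Icc 1 (2 * n ^ 2) ∪ Icc 1 B')).card ≤
            2 * n ^ 2 + B' := by
          refine (Finset.card_le_card (t := Icc 1 (2 * n ^ 2) ∪ Icc 1 B')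
            fun l hl => (mem_filter.1 hl).2).trans ?_
          refine (Finset.card_union_le _ _).trans ?_
          simp only [Nat.card_Icc]
          omega
        have hcard' : (((pr W \ P).filter
            (fun l => l ∈ Icc 1 (2 * n ^ 2) ∪ Icc 1 B')).card : ℝ) ≤ 2 * n ^ 2 + B' := by
          exact_mod_cast hcard
        rw [mul_comm]
        exact mul_le_mul_of_nonneg_left hcard' hn0.le
      have e5 : ∑ l ∈ pr W, (N1 L l : ℝ) / l - ∑ l ∈ (pr W).filter (fun l => 1 ≤ N1 L l),
          (1:ℝ) / l + ∑ l ∈ pr W, g l / l = ∑ l ∈ pr W, E l / (l:ℝ) := by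
        rw [Finset.sum_filter, ← Finset.sum_sub_distrib, ← Finset.sum_add_distrib]
        refine Finset.sum_congr rfl fun l hl => ?_
        simp only [hE]
        split_ifs <;> ring
      have e7 := hmert W hW3
      have e8 := hgain W hW3
      have e9 : ∑ l ∈ (pr W).filter (fun l => 1 ≤ N1 L l), (1:ℝ) / l ≤ GN L Y := by
        unfold GN
        refine Finset.sum_le_sum_of_subset_of_nonneg ?_ fun _ _ _ => by positivity
        refine Finset.filter_subset_filter _ ?_
        unfold pr
        refine Finset.filter_subset_filter _ (Finset.Icc_subset_Icc_right (Nat.floor_le_floor ?_))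
        nlinarith
      have e10 : Real.log (Real.log W) = Real.log (Real.log Y) - Real.log 2 := by
        have : Real.log W = Real.log Y / 2 := by
          rw [hW, Real.log_sqrt hY0.le]
        rw [this, Real.log_div hlogY.ne' (by norm_num)]
      rw [e10] at e7 e8
      have e11 : (1 + c) * (Real.log (Real.log Y) - Real.log 2) =
          (1 - c) * (Real.log (Real.log Y) - Real.log 2) +
          (c6 * (Real.log (Real.log Y) - Real.log 2)) := by rw [hc]; ring
      rw [e1, hR]
      have e12 : (1 + c) * Real.log (Real.log Y) = (1 + c) * (Real.log (Real.log Y) - Real.log 2) +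
        (1 + c) * Real.log 2 := by ring
      rw [e12, e11]
      linarith
    -- conclusion
    have hexp : Real.exp (∑ l ∈ P, η l) * c2 * M ≤ Cs * Y ^ n := by
      refine le_trans ?_ hs.2
      rw [mul_comm M]
      refine mul_le_mul_of_nonneg_right ?_ hM0
      rw [mul_comm]; exact hss
    have hexp2 : Real.exp ((1 + c) * Real.log (Real.log Y) - GN L Y - R) ≤
      Real.exp (∑ l ∈ P, η l) := Real.exp_le_exp.2 hlow
    have hrp : Real.log Y ^ (-(1 + c)) = Real.exp (-((1 + c) * Real.log (Real.log Y))) := by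
      rw [Real.rpow_def_of_pos hlogY]; congr 1; ring
    have h13 : Real.exp ((1 + c) * Real.log (Real.log Y) - GN L Y - R) * c2 * M ≤ Cs * Y ^ n :=
      (mul_le_mul_of_nonneg_right (mul_le_mul_of_nonneg_right hexp2 hc2.le) hM0).trans hexp
    have h14 : M ≤ Cs / c2 * Real.exp R * Y ^ n * Real.exp (GN L Y) * Real.log Y ^ (-(1 + c)) := by
      rw [hrp]
      set X1 := (1 + c) * Real.log (Real.log Y)
      have h15 : Cs / c2 * Real.exp R * Y ^ n * Real.exp (GN L Y) * Real.exp (-X1) =
          (Cs * Y ^ n) / (Real.exp (X1 - GN L Y - R) * c2) := by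
        rw [Real.exp_sub, Real.exp_sub, Real.exp_neg]
        field_simp
      rw [h15, le_div_iff₀ (by positivity)]
      linarith
    refine h14.trans ?_
    refine mul_le_mul_of_nonneg_right (mul_le_mul_of_nonneg_right
      (mul_le_mul_of_nonneg_right ?_ hYn.le) (Real.exp_pos _).le) hlp.le
    linarith

open Classical in
/-- a congruence for norms: if all primes above `l` have norm `1` modulo `m`, then `l ^ n = 1` modulo `m` -/
theorem norm_mod (L : Type) [Field L] [NumberField L] (l m : ℕ) (hl : l ≠ 0) (hm : 1 < m)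
    (h : ∀ v : HeightOneSpectrum (𝓞 L), Abv v l → Ideal.absNorm v.asIdeal % m = 1) :
    (l ^ Module.finrank ℚ L) % m = 1 := by
  have h0 : (Ideal.span {(l : 𝓞 L)}) ≠ ⊥ := by
    rw [Ne, Ideal.span_singleton_eq_bot]
    exact_mod_cast hl
  have h1 : Ideal.absNorm (Ideal.span {(l : 𝓞 L)}) = l ^ Module.finrank ℚ L := by
    rw [Ideal.absNorm_span_singleton]
    have : (l : 𝓞 L) = algebraMap ℤ (𝓞 L) (l : ℤ) := by simp
    rw [this, Algebra.norm_algebraMap, RingOfIntegers.rank]
    simp [Int.natAbs_pow]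
  have h2 : (UniqueFactorizationMonoid.normalizedFactors (Ideal.span {(l : 𝓞 L)})).prod =
      Ideal.span {(l : 𝓞 L)} :=
    Ideal.prod_normalizedFactors_eq_self h0
  rw [← h1, ← h2, map_multiset_prod]
  apply Multiset.prod_induction (fun x : ℕ => x % m = 1)
  · intro a b ha hb
    rw [Nat.mul_mod, ha, hb, one_mul, Nat.mod_eq_of_lt hm]
  · exact Nat.mod_eq_of_lt hm
  · intro x hx
    rw [Multiset.mem_map] at hx
    obtain ⟨I, hI, rfl⟩ := hx
    have hpr : Prime I := UniqueFactorizationMonoid.prime_of_normalized_factor I hI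
    have hI0 : I ≠ ⊥ := hpr.ne_zero
    have hip : I.IsPrime := Ideal.isPrime_of_prime hpr
    refine h ⟨I, hip, hI0⟩ ?_
    have hdv : I ∣ Ideal.span {(l : 𝓞 L)} := UniqueFactorizationMonoid.dvd_of_mem_normalizedFactors hI
    exact Ideal.dvd_span_singleton.1 hdv

open Classical in
theorem tauq_nonneg (L : Type) [Field L] [NumberField L] (q l : ℕ) : 0 ≤ tauq L q l := by
  unfold tauq
  split_ifs <;> norm_num

open Classical in
theorem coreq_aux (h1 : S_SIEVE) (h2 : S_SUMS) (h3 : S_CNTQ) (h4 : S_RAM) (h5 : S_M1) (h6 : S_M2)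
    (h7 : S_M3) : S_COREQ := by
  intro L _ _ q hq hq2 hqn B hB
  obtain ⟨⟨B0, hB0, hram⟩, hN1le⟩ := h4 L
  have hnpos : 0 < Module.finrank ℚ L := Module.finrank_pos
  have hq3 : 3 ≤ q := by
    have := hq.two_le
    omega
  have hn3 : 3 ≤ Module.finrank ℚ L := hq3.trans (Nat.le_of_dvd hnpos hqn)
  by_cases hZ : ∀ l : ℕ, l.Prime → ¬ l ∣ B → Zc L q l
  swap
  · refine ⟨1, 1, one_pos, fun T hT => ?_⟩
    exact absurd (fun l hl hlB => (hT l hl hlB).2.2) hZ
  set n := Module.finrank ℚ L with hndef
  set B' : ℕ := B * B0 with hB'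
  have hB'0 : B' ≠ 0 := mul_ne_zero hB hB0
  have hn0 : n ≠ 0 := by omega
  -- the gain
  obtain ⟨g, c6, C6, hc6, hg0, hgle, hgain⟩ : ∃ (g : ℕ → ℝ) (c6 C6 : ℝ), 0 < c6 ∧
      (∀ l : ℕ, 0 ≤ g l ∧ g l ≤ 1) ∧ (∀ l : ℕ, l.Prime → ¬ l ∣ B' →
        (N1 L l : ℝ) - (if 1 ≤ N1 L l then 1 else 0) + g l ≤ (N1 L l : ℝ) - tauq L q l) ∧
      ∀ Y : ℝ, 3 ≤ Y → c6 * Real.log (Real.log Y) - C6 ≤ ∑ l ∈ pr Y, g l / l := by
    by_cases hn4 : 4 ≤ n
    · obtain ⟨c, C, hc, hs⟩ := h6 L
      refine ⟨fun l => if N1 L l = n then 5 / 9 else 0, 5 / 9 * c, 5 / 9 * C, by positivity,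
        fun l => by simp only; split_ifs <;> norm_num, fun l hl hlB => ?_, fun Y hY => ?_⟩
      · simp only
        unfold tauq
        rw [← hndef]
        by_cases a1 : N1 L l = 0
        · have a2 : ¬ N1 L l = n := by omega
          have a3 : ¬ 1 ≤ N1 L l := by omega
          rw [if_neg a2, if_neg a3, if_pos a1]
          linarith
        · have a3 : 1 ≤ N1 L l := by omega
          rw [if_pos a3, if_neg a1]
          by_cases a2 : N1 L l = n
          · rw [if_pos a2, if_pos ⟨a2, hn4⟩]
            linarith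
          · rw [if_neg a2, if_neg (show ¬ (N1 L l = n ∧ 4 ≤ n) from fun h => a2 h.1)]
            split_ifs <;> linarith
      · have := hs Y hY
        rw [Finset.sum_filter] at this
        have e : ∑ l ∈ pr Y, (if N1 L l = n then (5 / 9 : ℝ) else 0) / l =
            5 / 9 * ∑ l ∈ pr Y, (if N1 L l = n then (1 : ℝ) / l else 0) := by
          rw [Finset.mul_sum]
          refine Finset.sum_congr rfl fun l _ => ?_
          split_ifs <;> ring
        rw [e]
        nlinarith
    · have hn3' : n = 3 := by omega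
      have hq3' : q = 3 := by
        rw [hn3'] at hqn
        exact (Nat.prime_dvd_prime_iff_eq hq Nat.prime_three).1 hqn
      obtain ⟨c, C, hc, hs⟩ := h7
      refine ⟨fun l => if l % 3 = 2 ∧ ¬ l ∣ B' then 2 / 3 else 0, 2 / 3 * c, 2 / 3 * (C + B'),
        by positivity, fun l => by simp only; split_ifs <;> norm_num, fun l hl hlB => ?_, fun Y hY => ?_⟩
      · simp only
        by_cases a0 : l % 3 = 2
        · have hlB1 : ¬ l ∣ B := fun h => hlB (h.mul_right _)
          have a3 : 1 ≤ N1 L l := by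
            by_contra hcon
            have hN0 : N1 L l = 0 := by omega
            have hall : ∀ v : HeightOneSpectrum (𝓞 L), Abv v l →
                Ideal.absNorm v.asIdeal % 3 = 1 := by
              intro v hv
              have := (hZ l hl hlB1).1 v hv ?_
              · rw [hq3'] at this
                exact this
              · intro hvl
                unfold N1 at hN0
                rw [Nat.card_eq_zero] at hN0
                rcases hN0 with h | h
                · exact h.elim ⟨v, hvl⟩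
                · have : Finite {v : HeightOneSpectrum (𝓞 L) // Ideal.absNorm v.asIdeal = l} := by
                    have hfin : Finite {I : Ideal (𝓞 L) // Ideal.absNorm I = l} :=
                      (Ideal.finite_setOfPred_absNorm_eq (S := 𝓞 L) l).to_subtype
                    refine Finite.of_injective (β := {I : Ideal (𝓞 L) // Ideal.absNorm I = l})
                      (fun v => ⟨v.1.asIdeal, v.2⟩) ?_
                    intro v w h
                    have h2 : v.1.asIdeal = w.1.asIdeal := congrArg Subtype.val h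
                    exact Subtype.ext (HeightOneSpectrum.ext h2)
                  exact absurd this (by
                    rw [not_finite_iff_infinite]
                    exact h)
            have := norm_mod L l 3 hl.ne_zero (by norm_num) hall
            rw [← hndef, hn3', Nat.pow_mod, a0] at this
            norm_num at this
          rw [if_pos a3, if_pos ⟨a0, hlB⟩]
          unfold tauq
          have a1 : ¬ N1 L l = 0 := by omega
          rw [if_neg a1, ← hndef, if_neg (show ¬ (N1 L l = n ∧ 4 ≤ n) from fun h => hn4 h.2), if_pos (by rw [hq3', a0]; norm_num)]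
          linarith
        · rw [if_neg (show ¬ (l % 3 = 2 ∧ ¬ l ∣ B') from fun h => a0 h.1)]
          unfold tauq
          by_cases a1 : N1 L l = 0
          · have a3 : ¬ 1 ≤ N1 L l := by omega
            rw [if_neg a3, if_pos a1]
            linarith
          · have a3 : 1 ≤ N1 L l := by omega
            rw [if_pos a3, if_neg a1]
            split_ifs <;> linarith
      · have := hs Y hY
        rw [Finset.sum_filter] at this
        have hB'' : ∑ l ∈ pr Y, (if l ∣ B' then (1 : ℝ) else 0) ≤ B' := by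
          rw [← Finset.sum_filter, Finset.sum_const, nsmul_eq_mul, mul_one]
          have h8 : ((pr Y).filter (fun l => l ∣ B')).card ≤ (Icc 1 B').card := by
            refine Finset.card_le_card fun l hl => ?_
            rw [mem_filter] at hl
            have hlpr : l.Prime := by
              have := hl.1
              unfold pr at this
              exact (mem_filter.1 this).2
            exact mem_Icc.2 ⟨hlpr.one_lt.le, Nat.le_of_dvd (Nat.pos_of_ne_zero hB'0) hl.2⟩
          rw [Nat.card_Icc] at h8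
          exact_mod_cast (by omega : ((pr Y).filter (fun l => l ∣ B')).card ≤ B')
        have e : ∑ l ∈ pr Y, ((if l % 3 = 2 then (1 : ℝ) / l else 0) - (if l ∣ B' then (1 : ℝ) else 0)) ≤
            ∑ l ∈ pr Y, 3 / 2 * ((if l % 3 = 2 ∧ ¬ l ∣ B' then (2 / 3 : ℝ) else 0) / l) := by
          refine Finset.sum_le_sum fun l hl => ?_
          have hlpr : l.Prime := by
            unfold pr at hl
            exact (mem_filter.1 hl).2
          have hl1 : (1 : ℝ) ≤ l := by exact_mod_cast hlpr.one_lt.le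
          have hl2 : (1 : ℝ) / l ≤ 1 := by
            rw [div_le_one (by linarith)]
            exact hl1
          have hl3 : (0 : ℝ) ≤ 1 / l := by positivity
          by_cases b1 : l % 3 = 2
          · by_cases b2 : l ∣ B'
            · rw [if_pos b1, if_pos b2, if_neg (show ¬ (l % 3 = 2 ∧ ¬ l ∣ B') from fun h => h.2 b2)]
              simp only [zero_div, mul_zero]
              linarith
            · rw [if_pos b1, if_neg b2, if_pos ⟨b1, b2⟩]
              apply le_of_eq
              ring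
          · rw [if_neg b1, if_neg (show ¬ (l % 3 = 2 ∧ ¬ l ∣ B') from fun h => b1 h.1)]
            split_ifs <;> simp
        rw [← Finset.mul_sum, Finset.sum_sub_distrib] at e
        linarith
  have hd1 : ∀ l : ℕ, l.Prime → ((N1 L l : ℝ) - tauq L q l = 0 ∨ 2 / 3 ≤ (N1 L l : ℝ) - tauq L q l) := by
    intro l hl
    unfold tauq
    rw [← hndef]
    by_cases a1 : N1 L l = 0
    · left
      rw [if_pos a1, a1]
      simp
    · rw [if_neg a1]
      have hN1 : 1 ≤ N1 L l := by omega
      have hN1' : (1 : ℝ) ≤ N1 L l := by exact_mod_cast hN1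
      by_cases a2 : N1 L l = n ∧ 4 ≤ n
      · rw [if_pos a2]
        right
        have : (4 : ℝ) ≤ N1 L l := by
          rw [a2.1]
          exact_mod_cast a2.2
        linarith
      · rw [if_neg a2]
        by_cases a4 : l % q ≠ 1
        · rw [if_pos a4]
          right
          linarith
        · rw [if_neg a4]
          by_cases a5 : N1 L l = 1
          · left
            rw [a5]
            simp
          · right
            have : 2 ≤ N1 L l := by omega
            have : (2 : ℝ) ≤ N1 L l := by exact_mod_cast this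
            linarith
  have hd2 : ∀ l : ℕ, l.Prime → (N1 L l : ℝ) - tauq L q l ≤ n := by
    intro l hl
    have e1 : (N1 L l : ℝ) ≤ n := by exact_mod_cast hN1le l hl
    have e2 := tauq_nonneg L q l
    linarith
  obtain ⟨c, C, hc, hmain⟩ := core_gen h1 h2 h4 h5 L (by omega) B' hB'0
    (fun l => (N1 L l : ℝ) - tauq L q l) g c6 C6 hc6 hg0
    (fun l hl hlB => ⟨hd1 l hl, hd2 l hl, hgle l hl hlB⟩) hgain
  refine ⟨c, C, hc, fun T hT => hmain T fun l hl hlB => ?_⟩
  have hlB1 : ¬ l ∣ B := fun h => hlB (h.mul_right _)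
  have hlB0 : ¬ l ∣ B0 := fun h => hlB (h.mul_left _)
  obtain ⟨t1, t2, t3⟩ := hT l hl hlB1
  exact h3 L q l hq hq2 hl hn3 (hram l hl hlB0) t3 T t1 t2

end Pool.Agent.Q277.SE
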