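import Pool.Agent.Q277.SE.Core
import Pool.Agent.Q51.EL.LSV
import Pool.Agent.Q247.EL.SIEVE
import Pool.Agent.Q247.EL.M1
import Pool.Agent.Q91.EL.Sums
import Pool.Agent.Q154.EL.M2

/-!
# Project SE, job COREQ
-/

set_option autoImplicit false

namespace Pool.Agent.Q277.SE

open Pool.Agent

theorem coreq (h1 : Pool.Agent.Q51.SE.S_CNTQ) (h2 : Pool.Agent.Q51.SE.S_M3) :
    Pool.Agent.Q51.SE.S_COREQ :=
  coreq_aux (Q247.EL.sieve Q51.EL.lsv) Q91.EL.sums h1 Q91.EL.ram Q247.EL.m1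
    (Q154.EL.m2 Q247.EL.m1 Q91.EL.ram) h2

end Pool.Agent.Q277.SE
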