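import Pool.Agent.Q51.SE.Stm
import Pool.Agent.Q239.EL.DESC
import Pool.Agent.Q91.EL.Small

set_option autoImplicit false
set_option linter.unusedSectionVars false

/-! Job DESCQ of project SE: the descent. -/

open Polynomial NumberField IsDedekindDomain
open Pool.Agent.Q51.EL (Abv N1 pr GN Gf Setup Ty1 S_SIEVE S_SUMS S_RAM S_M1 S_M2)
open Pool.Agent.Q51.SE

noncomputable section

namespace Pool.Agent.Q277.SE

open Pool.Agent.Q239.EL

section

variable {L : Type} [Field L] [NumberField L]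

lemma parq_excl {q : ℕ} (hq : 2 ≤ q) {v : HeightOneSpectrum (𝓞 L)} {x : L} (h0 : Parq q v x 0)
    (h1 : Parq q v x 1) : False := by
  obtain ⟨k, hk⟩ := h0
  obtain ⟨m, hm⟩ := h1
  rw [hk, WithZero.exp_inj] at hm
  have h2 : (q : ℤ) * (k - m) = 1 := by linarith
  have h3 : (q : ℤ) ∣ 1 := ⟨_, h2.symm⟩
  have h4 := Int.le_of_dvd one_pos h3
  have : (2 : ℤ) ≤ q := by exact_mod_cast hq
  omega

lemma parq_mul {q : ℕ} {v : HeightOneSpectrum (𝓞 L)} {x y : L} {e m : ℤ}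
    (hy : v.valuation L y = WithZero.exp (-m)) (h : Parq q v x e) : Parq q v (y * x) (e + m) := by
  obtain ⟨k, hk⟩ := h
  refine ⟨k, ?_⟩
  rw [map_mul, hy, hk, ← WithZero.exp_add]
  congr 1
  ring

lemma parq_congr {q : ℕ} {v : HeightOneSpectrum (𝓞 L)} {x : L} {e e' : ℤ} (h : Parq q v x e)
    (he : (q : ℤ) ∣ e - e') : Parq q v x e' := by
  obtain ⟨k, hk⟩ := h
  obtain ⟨m, hm⟩ := he
  refine ⟨k + m, ?_⟩
  rw [hk]
  congr 1
  linarith

lemma near_mono {q l : ℕ} {θ δ η : L} {K K' : ℕ} (hK : K' ≤ K) (h : Near q l θ δ η K) :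
    Near q l θ δ η K' := by
  obtain ⟨x, w, e, g, h1, h2, h3⟩ := h
  refine ⟨x, w, e, g, h1, h2, fun v hv => (h3 v hv).trans ?_⟩
  rw [WithZero.exp_le_exp]
  have : (K' : ℤ) ≤ K := by exact_mod_cast hK
  omega

lemma val_prod_pows {l : ℕ} (hl : l.Prime) {v : HeightOneSpectrum (𝓞 L)} (hv : Abv v l)
    (hvl : v.valuation L (l : L) = WithZero.exp (-1 : ℤ)) (S : Finset ℕ) (a : ℕ → ℕ)
    (hS : ∀ p ∈ S, p.Prime) : v.valuation L ((∏ p ∈ S, p ^ a p : ℕ) : L) =
      WithZero.exp (-(if l ∈ S then (a l : ℤ) else 0)) := by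
  have h1 : ∀ p ∈ S, p ≠ l → v.valuation L ((p : L) ^ a p) = 1 := by
    intro p hp hne
    have h2 : v.valuation L (p : L) = 1 := by
      rw [← nat_coe]
      apply (HeightOneSpectrum.valuation_eq_one_iff_notMem v).mpr
      intro h
      exact hne (prime_unique (hS p hp) hl h hv)
    rw [map_pow, h2, one_pow]
  push_cast
  rw [map_prod]
  by_cases h : l ∈ S
  · rw [Finset.prod_eq_single_of_mem l h h1, map_pow, hvl, if_pos h, ← WithZero.exp_nsmul]
    congr 1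
    simp
  · rw [if_neg h, neg_zero, WithZero.exp_zero]
    apply Finset.prod_eq_one
    intro p hp
    exact h1 p hp (fun hpl => h (hpl ▸ hp))

end

/-- natural numbers all of whose valuations are divisible by `q` are `q`-th powers -/
lemma nat_pow_of {q : ℕ} {m : ℕ} (hm : m ≠ 0) (h : ∀ p : ℕ, p.Prime → q ∣ m.factorization p) :
    ∃ a : ℕ, m = a ^ q := by
  refine ⟨m.factorization.prod fun p k => p ^ (k / q), ?_⟩
  conv_lhs => rw [← Nat.prod_factorization_pow_eq_self hm]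
  rw [Finsupp.prod, Finsupp.prod, ← Finset.prod_pow]
  refine Finset.prod_congr rfl fun p hp => ?_
  have hpp : p.Prime := Nat.prime_of_mem_primeFactors (by simpa using hp)
  rw [← pow_mul, Nat.div_mul_cancel (h p hpp)]

lemma rat_pow_of {q : ℕ} (hq : Odd q) {r : ℚ} (hr : r ≠ 0)
    (h : ∀ p : ℕ, p.Prime → (q : ℤ) ∣ padicValRat p r) : ∃ z : ℚ, r = z ^ q := by
  have hnum : r.num.natAbs ≠ 0 := by
    rw [Int.natAbs_ne_zero]
    exact Rat.num_ne_zero.mpr hr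
  have hfac : ∀ p : ℕ, p.Prime → q ∣ r.num.natAbs.factorization p ∧ q ∣ r.den.factorization p := by
    intro p hp
    have : Fact p.Prime := ⟨hp⟩
    have h1 := h p hp
    unfold padicValRat padicValInt at h1
    rw [Nat.factorization_def _ hp, Nat.factorization_def _ hp]
    have hcop := r.reduced
    by_cases h2 : p ∣ r.den
    · have h3 : ¬ p ∣ r.num.natAbs := fun h4 =>
        hp.one_lt.ne' (Nat.dvd_one.mp (hcop ▸ Nat.dvd_gcd h4 h2))
      have h5 := padicValNat.eq_zero_of_not_dvd h3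
      rw [h5] at h1 ⊢
      refine ⟨dvd_zero _, ?_⟩
      have h6 : (q : ℤ) ∣ ((padicValNat p r.den : ℕ) : ℤ) := by
        have := (dvd_neg (α := ℤ)).mpr h1
        simpa using this
      exact_mod_cast h6
    · have h5 := padicValNat.eq_zero_of_not_dvd h2
      rw [h5] at h1 ⊢
      refine ⟨?_, dvd_zero _⟩
      have h6 : (q : ℤ) ∣ ((padicValNat p r.num.natAbs : ℕ) : ℤ) := by simpa using h1
      exact_mod_cast h6
  obtain ⟨a, ha⟩ := nat_pow_of hnum fun p hp => (hfac p hp).1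
  obtain ⟨b, hb⟩ := nat_pow_of r.den_ne_zero fun p hp => (hfac p hp).2
  rcases Int.natAbs_eq r.num with h1 | h1
  · refine ⟨a / b, ?_⟩
    rw [div_pow]
    conv_lhs => rw [← Rat.num_div_den r, h1, ha, hb]
    push_cast
    rfl
  · refine ⟨-(a / b), ?_⟩
    rw [hq.neg_pow, div_pow]
    conv_lhs => rw [← Rat.num_div_den r, h1, ha, hb]
    push_cast
    ring

theorem descq (hun : S_UNQ) (hcl : S_CLQ) (hsc : S_SCQ) (hsd : S_SDQ) (hch : S_CHQ) :
    S_DESCQ := by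
  classical
  intro f L _ _ θ hs q hq hq2 hqn t ht B0 hB0
  have hq3 : 3 ≤ q := by
    have := hq.two_le
    omega
  have hq2' : 2 ≤ q := by omega
  have hf0 : 0 < f.natDegree := by
    rw [← hs.deg]
    exact Module.finrank_pos
  have hn3 : 3 ≤ f.natDegree := hq3.trans (Nat.le_of_dvd hf0 hqn)
  have hlc : f.leadingCoeff ≠ 0 := by
    intro h
    rw [leadingCoeff_eq_zero] at h
    rw [h] at hf0
    simp at hf0
  obtain ⟨Cu, hCu, hun'⟩ := hun L q (by omega)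
  obtain ⟨Bs, hBs, hsc'⟩ := hsc f L θ hs q hq hqn
  obtain ⟨Bd, hBd, hsd'⟩ := hsd f L θ hs hn3 q hq2'
  obtain ⟨⟨Br, hBr, hBr'⟩, -⟩ := Pool.Agent.Q91.EL.ram L
  set B1 : ℕ := B0 * (Bs * Bd * Br * f.leadingCoeff.natAbs) with hB1def
  have hB1 : B1 ≠ 0 := mul_ne_zero hB0 (mul_ne_zero (mul_ne_zero (mul_ne_zero hBs hBd) hBr)
    (Int.natAbs_ne_zero.mpr hlc))
  obtain ⟨B, Cc, hB, hCc, hB1B, hcl'⟩ := hcl L q hq2' B1 hB1
  have hn : Module.finrank ℚ L = f.natDegree := hs.deg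
  refine ⟨B, Cu * Cc ^ ((1 : ℝ) / f.natDegree), hB, by positivity,
    (Dvd.intro _ rfl : B0 ∣ B1).trans hB1B, ?_⟩
  intro D δ hD hd hsq hcov
  have hD0 : D ≠ 0 := hD.ne_zero
  have hBl : ∀ l : ℕ, ¬ l ∣ B → ¬ l ∣ B0 ∧ ¬ l ∣ Bs ∧ ¬ l ∣ Bd ∧ ¬ l ∣ Br ∧ ¬ l ∣ f.leadingCoeff.natAbs := by
    intro l h
    have h' : ¬ l ∣ B1 := fun h1 => h (h1.trans hB1B)
    rw [hB1def] at h'
    exact ⟨fun h1 => h' (h1.mul_right _),
      fun h1 => h' ((((h1.mul_right _).mul_right _).mul_right _).mul_left _),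
      fun h1 => h' ((((h1.mul_left _).mul_right _).mul_right _).mul_left _),
      fun h1 => h' (((h1.mul_left _).mul_right _).mul_left _),
      fun h1 => h' ((h1.mul_left _).mul_left _)⟩
  have hNδ : Algebra.norm ℚ δ ≠ 0 := Algebra.norm_ne_zero_iff.mpr hd
  have hlcQ : (f.leadingCoeff : ℚ) ≠ 0 := by exact_mod_cast hlc
  -- the classes modulo `q`
  have hSC : ∀ l : ℕ, l.Prime → ¬ l ∣ B → ∃ e : ℕ, e < q ∧
      ((¬ (l : ℤ) ∣ D ∧ ∀ v : HeightOneSpectrum (𝓞 L), Abv v l → Parq q v δ e) ∨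
      ((l : ℤ) ∣ D ∧ ∃ v0 : HeightOneSpectrum (𝓞 L), Abv v0 l ∧ Ideal.absNorm v0.asIdeal = l ∧
        Parq q v0 δ (e + 1) ∧ ∀ v : HeightOneSpectrum (𝓞 L), Abv v l → v ≠ v0 → Parq q v δ e)) := by
    intro l hl hlB
    have : Fact l.Prime := ⟨hl⟩
    have h0 : (q : ℤ) ∣ padicValRat l (Algebra.norm ℚ δ) - padicValInt l D := by
      have h1 := hsq l hl
      rw [padicValRat.mul hlcQ hNδ, padicValRat.of_int, padicValInt,
        padicValNat.eq_zero_of_not_dvd (hBl l hlB).2.2.2.2] at h1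
      simpa using h1
    obtain ⟨η, hη1, hη2⟩ := (hcov l hl (hBl l hlB).1).1
    obtain ⟨e, he⟩ := hsc' l hl (hBl l hlB).2.1 δ D hd hD h0 ⟨η, hη1, near_mono (by omega) hη2⟩
    have hqpos : (0 : ℤ) < q := by exact_mod_cast (by omega : 0 < q)
    have hmod0 := Int.emod_nonneg e hqpos.ne'
    have hmod1 := Int.emod_lt_of_pos e hqpos
    have hdm := Int.mul_ediv_add_emod e q
    have hto : (((e % q).toNat : ℕ) : ℤ) = e % q := Int.toNat_of_nonneg hmod0
    have h1 : ∀ (v : HeightOneSpectrum (𝓞 L)) (x : L), Parq q v x e →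
        Parq q v x ((e % q).toNat : ℕ) := fun v x h =>
      parq_congr h ⟨e / q, by rw [hto]; linarith⟩
    have h2 : ∀ (v : HeightOneSpectrum (𝓞 L)) (x : L), Parq q v x (e + 1) →
        Parq q v x (((e % q).toNat : ℕ) + 1) := fun v x h =>
      parq_congr h ⟨e / q, by rw [hto]; linarith⟩
    refine ⟨(e % q).toNat, by omega, ?_⟩
    rcases he with ⟨h3, h4⟩ | ⟨h3, v0, h4, h5, h6, h7⟩
    · exact Or.inl ⟨h3, fun v hv => h1 v δ (h4 v hv)⟩
    · exact Or.inr ⟨h3, v0, h4, h5, h2 v0 δ h6, fun v hv hne => h1 v δ (h7 v hv hne)⟩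
  let ee : ℕ → ℕ := fun l => if h : l.Prime ∧ ¬ l ∣ B then (hSC l h.1 h.2).choose else 0
  have hee : ∀ l (hl : l.Prime) (hlB : ¬ l ∣ B), ee l < q ∧
      ((¬ (l : ℤ) ∣ D ∧ ∀ v : HeightOneSpectrum (𝓞 L), Abv v l → Parq q v δ (ee l)) ∨
      ((l : ℤ) ∣ D ∧ ∃ v0 : HeightOneSpectrum (𝓞 L), Abv v0 l ∧ Ideal.absNorm v0.asIdeal = l ∧
        Parq q v0 δ (ee l + 1) ∧ ∀ v : HeightOneSpectrum (𝓞 L), Abv v l → v ≠ v0 →
          Parq q v δ (ee l))) := by
    intro l hl hlB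
    have h1 : ee l = (hSC l hl hlB).choose := dif_pos ⟨hl, hlB⟩
    rw [h1]
    exact (hSC l hl hlB).choose_spec
  have hfin : {l : ℕ | l.Prime ∧ ¬ l ∣ B ∧ ee l ≠ 0}.Finite := by
    refine ((D.natAbs.divisors.finite_toSet).union ((supp_finite hd).image bl)).subset ?_
    rintro l ⟨hl, hlB, he⟩
    have : Fact l.Prime := ⟨hl⟩
    rcases (hee l hl hlB).2 with ⟨h3, h4⟩ | ⟨h3, -⟩
    · right
      obtain ⟨v, hv⟩ := exists_above (L := L) (hBr' l hl (hBl l hlB).2.2.2.1)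
      refine ⟨v, ?_, prime_unique (bl_prime v) hl (bl_abv v) hv⟩
      intro h5
      have h6 := h4 v hv
      obtain ⟨k, hk⟩ := h6
      rw [h5, ← WithZero.exp_zero, WithZero.exp_inj] at hk
      have h7 : (q : ℤ) ∣ (ee l : ℤ) := ⟨-k, by linarith⟩
      have h8 : q ∣ ee l := by exact_mod_cast h7
      have h9 := Nat.le_of_dvd (Nat.pos_of_ne_zero he) h8
      have h10 := (hee l hl hlB).1
      omega
    · left
      rw [Finset.mem_coe, Nat.mem_divisors]
      exact ⟨Int.natCast_dvd.mp h3, Int.natAbs_ne_zero.mpr hD0⟩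
  set S1 := hfin.toFinset with hS1
  have hS1m : ∀ l, l ∈ S1 ↔ l.Prime ∧ ¬ l ∣ B ∧ ee l ≠ 0 := fun l => hfin.mem_toFinset
  set c : ℕ := ∏ p ∈ S1, p ^ (q - ee p) with hc
  have hc0 : c ≠ 0 := Finset.prod_ne_zero_iff.mpr fun p hp =>
    pow_ne_zero _ ((hS1m p).mp hp).1.ne_zero
  have hcL : (c : L) ≠ 0 := by exact_mod_cast hc0
  have hvl : ∀ (l : ℕ) (v : HeightOneSpectrum (𝓞 L)), l.Prime → ¬ l ∣ B → Abv v l →
      v.valuation L (l : L) = WithZero.exp (-1 : ℤ) := by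
    intro l v hl hlB hv
    have : Fact l.Prime := ⟨hl⟩
    have hl0 : (l : 𝓞 L) ≠ 0 := by exact_mod_cast hl.ne_zero
    have h1 := val_int v hl0
    rw [nat_coe, mu_l (hBr' l hl (hBl l hlB).2.2.2.1) hv] at h1
    exact_mod_cast h1
  have hvc : ∀ (l : ℕ) (v : HeightOneSpectrum (𝓞 L)) (x : L) (e : ℤ), l.Prime → ¬ l ∣ B → Abv v l →
      Parq q v x (ee l + e) → Parq q v ((c : L) * x) e := by
    intro l v x e hl hlB hv hx
    have h1 := val_prod_pows hl hv (hvl l v hl hlB hv) S1 (fun p => q - ee p)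
      fun p hp => ((hS1m p).mp hp).1
    have h2 := (hee l hl hlB).1
    have h3 := parq_mul h1 hx
    refine parq_congr h3 ?_
    by_cases h : ee l = 0
    · rw [if_neg (fun h2 => ((hS1m l).mp h2).2.2 h), h]
      simp
    · rw [if_pos ((hS1m l).mpr ⟨hl, hlB, h⟩)]
      refine ⟨1, ?_⟩
      push_cast [Nat.cast_sub h2.le]
      ring
  have hkey : ∀ l : ℕ, l.Prime → ¬ l ∣ B →
      ((¬ (l : ℤ) ∣ D ∧ ∀ v : HeightOneSpectrum (𝓞 L), Abv v l → Parq q v ((c : L) * δ) 0) ∨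
      ((l : ℤ) ∣ D ∧ ∃ v0 : HeightOneSpectrum (𝓞 L), Abv v0 l ∧ Ideal.absNorm v0.asIdeal = l ∧
        Parq q v0 ((c : L) * δ) 1 ∧ ∀ v : HeightOneSpectrum (𝓞 L), Abv v l → v ≠ v0 →
          Parq q v ((c : L) * δ) 0)) := by
    intro l hl hlB
    have h1 : ∀ v, Abv v l → Parq q v δ (ee l) → Parq q v ((c : L) * δ) 0 := by
      intro v hv h
      exact hvc l v δ 0 hl hlB hv (by rwa [add_zero])
    rcases (hee l hl hlB).2 with ⟨h3, h4⟩ | ⟨h3, v0, h4, h5, h6, h7⟩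
    · exact Or.inl ⟨h3, fun v hv => h1 v hv (h4 v hv)⟩
    · exact Or.inr ⟨h3, v0, h4, h5, hvc l v0 δ 1 hl hlB h4 h6, fun v hv hne => h1 v hv (h7 v hv hne)⟩
  have hcδ : (c : L) * δ ≠ 0 := mul_ne_zero hcL hd
  have hblB : ∀ v : HeightOneSpectrum (𝓞 L), (B : 𝓞 L) ∉ v.asIdeal → ¬ bl v ∣ B := by
    rintro v hv ⟨m, hm⟩
    apply hv
    rw [hm, Nat.cast_mul]
    exact Ideal.mul_mem_right _ _ (bl_abv v)
  -- the set `S`
  have hSfin : {v : HeightOneSpectrum (𝓞 L) | (B : 𝓞 L) ∉ v.asIdeal ∧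
      Parq q v ((c : L) * δ) 1}.Finite := by
    refine (supp_finite hcδ).subset ?_
    rintro v ⟨-, hv⟩ h5
    obtain ⟨k, hk⟩ := hv
    rw [h5, ← WithZero.exp_zero, WithZero.exp_inj] at hk
    have h7 : (q : ℤ) ∣ 1 := ⟨-k, by linarith⟩
    have h8 := Int.le_of_dvd one_pos h7
    omega
  set S := hSfin.toFinset with hS
  have hSm : ∀ v, v ∈ S ↔ (B : 𝓞 L) ∉ v.asIdeal ∧ Parq q v ((c : L) * δ) 1 := fun v =>
    hSfin.mem_toFinset
  have hor : ∀ v : HeightOneSpectrum (𝓞 L), (B : 𝓞 L) ∉ v.asIdeal →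
      Parq q v ((c : L) * δ) 0 ∨ Parq q v ((c : L) * δ) 1 := by
    intro v hv
    rcases hkey (bl v) (bl_prime v) (hblB v hv) with ⟨-, h4⟩ | ⟨-, v0, -, -, h6, h7⟩
    · exact Or.inl (h4 v (bl_abv v))
    · by_cases h : v = v0
      · rw [h]
        exact Or.inr h6
      · exact Or.inl (h7 v (bl_abv v) h)
  obtain ⟨η, α0, hη, hα0, hval0, hnorm0⟩ := hcl' ((c : L) * δ) S hcδ (fun v hv =>
    ⟨fun h => ((hSm v).mp h).2, fun h => by
      rcases hor v hv with h1 | h1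
      · exact h1
      · exact absurd ((hSm v).mpr ⟨hv, h1⟩) h⟩)
  have hα0L : (α0 : L) ≠ 0 := by
    rw [hα0]
    exact mul_ne_zero hcδ (pow_ne_zero q hη)
  have hα00 : α0 ≠ 0 := by
    rintro rfl
    exact hα0L (by simp)
  -- the norms
  have hprodS : ∏ v ∈ S, Ideal.absNorm v.asIdeal ≤ D.natAbs := by
    have hSm' : ∀ v ∈ S, ((bl v : ℕ) : ℤ) ∣ D ∧ Ideal.absNorm v.asIdeal = bl v ∧
        ∀ v' ∈ S, bl v' = bl v → v' = v := by
      intro v hv
      obtain ⟨hv2, hv3⟩ := (hSm v).mp hv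
      rcases hkey (bl v) (bl_prime v) (hblB v hv2) with ⟨-, h4⟩ | ⟨h3, v0, h4, h5, h6, h7⟩
      · exact absurd hv3 (fun h => parq_excl hq2' (h4 v (bl_abv v)) h)
      · have h8 : v = v0 := by
          by_contra hne
          exact parq_excl hq2' (h7 v (bl_abv v) hne) hv3
        refine ⟨h3, by rw [h8]; rw [h8] at h5; exact h5, ?_⟩
        intro v' hv' hbl
        have hv3' := ((hSm v').mp hv').2
        have h9 : v' = v0 := by
          by_contra hne
          exact parq_excl hq2' (h7 v' (by rw [← hbl]; exact bl_abv v') hne) hv3'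
        rw [h9, h8]
    have h2 : ∏ v ∈ S, Ideal.absNorm v.asIdeal ∣ D.natAbs := by
      have h3 : ∏ v ∈ S, Ideal.absNorm v.asIdeal = ∏ p ∈ S.image bl, p := by
        rw [Finset.prod_image (fun v hv v' hv' h => (hSm' v' hv').2.2 v hv h)]
        exact Finset.prod_congr rfl fun v hv => (hSm' v hv).2.1
      rw [h3]
      apply Finset.prod_primes_dvd
      · intro p hp
        obtain ⟨v, hv, rfl⟩ := Finset.mem_image.mp hp
        exact (bl_prime v).prime
      · intro p hp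
        obtain ⟨v, hv, rfl⟩ := Finset.mem_image.mp hp
        exact Int.natCast_dvd.mp (hSm' v hv).1
    exact Nat.le_of_dvd (Nat.pos_of_ne_zero (Int.natAbs_ne_zero.mpr hD0)) h2
  obtain ⟨u, hu⟩ := hun' α0 hα00
  set α : 𝓞 L := α0 * (u : 𝓞 L) ^ q with hα
  have huL : ((u : 𝓞 L) : L) ≠ 0 := coe_ne u.ne_zero
  have e1 : (α : L) = (α0 : L) * ((u : 𝓞 L) : L) ^ q := by
    rw [hα]
    have e2 : ((α0 * (u : 𝓞 L) ^ q : 𝓞 L) : L) = (α0 : L) * (((u : 𝓞 L) ^ q : 𝓞 L) : L) :=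
      map_mul (algebraMap (𝓞 L) L) _ _
    rw [e2]
    congr 1
  have hαL : (α : L) = ((c : ℚ) : L) * δ * (η * ((u : 𝓞 L) : L)) ^ q := by
    rw [e1, hα0, Rat.cast_natCast, mul_pow]
    ring
  have hηu : η * ((u : 𝓞 L) : L) ≠ 0 := mul_ne_zero hη huL
  have hcQ : (c : ℚ) ≠ 0 := by exact_mod_cast hc0
  have hαL0 : (α : L) ≠ 0 := by
    rw [e1]
    exact mul_ne_zero hα0L (pow_ne_zero q huL)
  have hvu : ∀ v : HeightOneSpectrum (𝓞 L), v.valuation L ((u : 𝓞 L) : L) = 1 := by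
    intro v
    apply (HeightOneSpectrum.valuation_eq_one_iff_notMem v).mpr
    intro h
    exact v.isPrime.ne_top (Ideal.eq_top_of_isUnit_mem _ h u.isUnit)
  have hvα : ∀ v : HeightOneSpectrum (𝓞 L), v.valuation L (α : L) = v.valuation L (α0 : L) := by
    intro v
    rw [e1, map_mul, map_pow, hvu, one_pow, mul_one]
  have hBmem : ∀ (l : ℕ) (v : HeightOneSpectrum (𝓞 L)), l.Prime → Abv v l → ¬ l ∣ B →
      (B : 𝓞 L) ∉ v.asIdeal := by
    intro l v hl hv hm h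
    apply hm
    have h1 := (int_mem_iff hl hv (B : ℤ)).mp (by exact_mod_cast h)
    exact_mod_cast h1
  refine ⟨α, ?_, ?_, ?_, ?_⟩
  · rintro h
    rw [h] at hαL0
    exact hαL0 (by simp)
  · intro l hl hlB
    have : Fact l.Prime := ⟨hl⟩
    have hBcv : ∀ v : HeightOneSpectrum (𝓞 L), Abv v l → (B : 𝓞 L) ∉ v.asIdeal := fun v hv =>
      hBmem l v hl hv hlB
    have hv1 : ∀ v : HeightOneSpectrum (𝓞 L), Abv v l → Parq q v ((c : L) * δ) 0 →
        v.valuation L (α : L) = 1 := by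
      intro v hv h
      rw [hvα]
      exact (hval0 v (hBcv v hv)).2 (fun h2 => parq_excl hq2' h ((hSm v).mp h2).2)
    rcases hkey l hl hlB with ⟨h3, h4⟩ | ⟨h3, v0, h4, h5, h6, h7⟩
    · left
      intro v hv
      exact (HeightOneSpectrum.valuation_eq_one_iff_notMem v).mp (hv1 v hv (h4 v hv))
    · right
      have hv0 : v0.valuation L (α : L) = WithZero.exp (-1 : ℤ) := by
        rw [hvα]
        exact (hval0 v0 (hBcv v0 h4)).1 ((hSm v0).mpr ⟨hBcv v0 h4, h6⟩)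
      have hother : ∀ v : HeightOneSpectrum (𝓞 L), Abv v l → v ≠ v0 →
          v.valuation L (α : L) = 1 := fun v hv hne => hv1 v hv (h7 v hv hne)
      refine ⟨v0, h4, h5, ?_, ?_, ?_⟩
      · apply (HeightOneSpectrum.valuation_lt_one_iff_mem (K := L) v0 α).mp
        have h8 : v0.valuation L (α : L) < 1 := by
          rw [hv0, ← WithZero.exp_zero, WithZero.exp_lt_exp]
          norm_num
        exact h8
      · intro v hv hne
        exact (HeightOneSpectrum.valuation_eq_one_iff_notMem v).mp (hother v hv hne)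
      · have hnear : Near q l θ (α : L) 1 q := by
          rw [hαL]
          refine hch L θ q l hq2' hl (fun v hv => hvl l v hl hlB hv) δ (η * ((u : 𝓞 L) : L)) 1 (c : ℚ) q
            hd hηu hcQ ?_
          have := (hcov l hl (hBl l hlB).1).2 h3
          rwa [two_mul] at this
        exact hsd' t ht l hl (hBl l hlB).2.2.1 α hnear v0 h4 h5 hv0 hother
  · have hNc : Algebra.norm ℚ ((c : ℚ) : L) = (c : ℚ) ^ Module.finrank ℚ L := by
      have := Algebra.norm_algebraMap (S := L) (c : ℚ)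
      simpa using this
    have hDQ : (D : ℚ) ≠ 0 := by exact_mod_cast hD0
    have hNηu : Algebra.norm ℚ (η * ((u : 𝓞 L) : L)) ≠ 0 := Algebra.norm_ne_zero_iff.mpr hηu
    have hNα : Algebra.norm ℚ (α : L) = (c : ℚ) ^ f.natDegree * Algebra.norm ℚ δ *
        Algebra.norm ℚ (η * ((u : 𝓞 L) : L)) ^ q := by
      rw [hαL, map_mul, map_mul, map_pow, hNc, hn]
    have hr : (f.leadingCoeff : ℚ) * Algebra.norm ℚ (α : L) / D ≠ 0 := by
      refine div_ne_zero (mul_ne_zero hlcQ ?_) hDQ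
      exact Algebra.norm_ne_zero_iff.mpr hαL0
    obtain ⟨z, hz⟩ := rat_pow_of (hq.odd_of_ne_two hq2) hr (fun p hp => by
      have : Fact p.Prime := ⟨hp⟩
      have h1 := hsq p hp
      have e3 : (f.leadingCoeff : ℚ) * Algebra.norm ℚ (α : L) / D =
          (f.leadingCoeff : ℚ) * Algebra.norm ℚ δ / D * ((c : ℚ) ^ f.natDegree *
            Algebra.norm ℚ (η * ((u : 𝓞 L) : L)) ^ q) := by
        rw [hNα]
        ring
      rw [e3, padicValRat.mul (div_ne_zero (mul_ne_zero hlcQ hNδ) hDQ)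
        (mul_ne_zero (pow_ne_zero _ hcQ) (pow_ne_zero _ hNηu)),
        padicValRat.div (mul_ne_zero hlcQ hNδ) hDQ,
        padicValRat.mul (pow_ne_zero _ hcQ) (pow_ne_zero _ hNηu), padicValRat.pow, padicValRat.pow,
        padicValRat.of_int]
      refine dvd_add h1 (dvd_add ?_ (Dvd.intro _ rfl))
      exact Dvd.dvd.mul_right (by exact_mod_cast hqn) _)
    refine ⟨z, ?_⟩
    rw [← hz]
    field_simp
  · intro σ
    have hN : ((Ideal.absNorm (Ideal.span {α0}) : ℕ) : ℝ) ≤ Cc * (D.natAbs : ℝ) := by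
      refine hnorm0.trans ?_
      have h1 : (∏ v ∈ S, ((Ideal.absNorm v.asIdeal : ℕ) : ℝ)) ≤ (D.natAbs : ℝ) := by
        exact_mod_cast hprodS
      exact mul_le_mul_of_nonneg_left h1 hCc.le
    have h2 := hu σ
    rw [hn] at h2
    refine h2.trans ?_
    have hexp : (0 : ℝ) ≤ (1 : ℝ) / f.natDegree := by positivity
    calc Cu * ((Ideal.absNorm (Ideal.span {α0}) : ℕ) : ℝ) ^ ((1 : ℝ) / f.natDegree)
        ≤ Cu * (Cc * (D.natAbs : ℝ)) ^ ((1 : ℝ) / f.natDegree) :=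
          mul_le_mul_of_nonneg_left (Real.rpow_le_rpow (by positivity) hN hexp) hCu.le
      _ = _ := by
          rw [Real.mul_rpow (by positivity) (by positivity)]
          ring

end Pool.Agent.Q277.SE
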