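import Pool.Agent.Q51.SE.Stm
import Pool.Agent.Q239.EL.DESC
import Pool.Agent.Q91.EL.Small

set_option autoImplicit false
set_option linter.unusedSectionVars false

/-! Job ZETA of project SE: the residue fields contain the roots of unity.

Instead of polynomials in two variables we use the ring `A` of all algebraic integers and a prime ideal of
`A` above `v`. -/

open Polynomial NumberField IsDedekindDomain
open Pool.Agent.Q51.EL (Abv Setup S_ROOT)
open Pool.Agent.Q51.SE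

noncomputable section

namespace Pool.Agent.Q277.SE

open Pool.Agent.Q239.EL

/-- common denominators -/
lemma den (x x' ζ : ℂ) (a : ℤ) (ha : a ≠ 0) (hx : IsAlgebraic ℚ x) (hx' : IsAlgebraic ℚ x')
    (hζ : ζ ∈ IntermediateField.adjoin ℚ ({x, x'} : Set ℂ)) :
    ∃ d : ℕ, d ≠ 0 ∧ (d : ℂ) * ζ ∈ Algebra.adjoin ℤ ({(a : ℂ) * x, (a : ℂ) * x'} : Set ℂ) := by
  set S := Algebra.adjoin ℤ ({(a : ℂ) * x, (a : ℂ) * x'} : Set ℂ) with hS
  have hint : ∀ z : ℤ, (z : ℂ) ∈ S := fun z => S.algebraMap_mem z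
  have h1 : ζ ∈ Algebra.adjoin ℚ ({x, x'} : Set ℂ) := by
    rw [← IntermediateField.adjoin_toSubalgebra_of_isAlgebraic (by
      intro y hy
      rcases hy with rfl | hy
      · exact hx
      · rw [Set.mem_singleton_iff] at hy
        rw [hy]
        exact hx')]
    exact hζ
  have hkey : ∀ z ∈ ({x, x'} : Set ℂ), ∃ d : ℕ, d ≠ 0 ∧ (d : ℂ) * z ∈ S := by
    intro z hz
    refine ⟨a.natAbs, Int.natAbs_ne_zero.mpr ha, ?_⟩
    have h2 : (a : ℂ) * z ∈ S := by
      apply Algebra.subset_adjoin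
      rcases hz with rfl | hz
      · exact Or.inl rfl
      · rw [Set.mem_singleton_iff] at hz
        rw [hz]
        exact Or.inr rfl
    have h3 : ((a.natAbs : ℕ) : ℂ) = ((a.natAbs : ℤ) : ℂ) := (Int.cast_natCast _).symm
    rw [h3]
    rcases Int.natAbs_eq a with h | h
    · rw [← h]
      exact h2
    · have h4 : (a.natAbs : ℤ) = -a := by omega
      rw [h4]
      push_cast
      rw [neg_mul]
      exact S.neg_mem h2
  refine Algebra.adjoin_induction (p := fun z _ => ∃ d : ℕ, d ≠ 0 ∧ (d : ℂ) * z ∈ S)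
    (fun z hz => hkey z hz) ?_ ?_ ?_ h1
  · intro r
    refine ⟨r.den, r.den_ne_zero, ?_⟩
    have : (r.den : ℂ) * algebraMap ℚ ℂ r = (r.num : ℂ) := by
      rw [eq_ratCast]
      have h2 : (r.den : ℚ) * r = r.num := Rat.den_mul_eq_num r
      exact_mod_cast congrArg (fun y : ℚ => (y : ℂ)) h2
    rw [this]
    exact hint _
  · rintro y z - - ⟨d, hd, h2⟩ ⟨e, he, h3⟩
    refine ⟨d * e, mul_ne_zero hd he, ?_⟩
    have h4 : ((d * e : ℕ) : ℂ) * (y + z) = ((e : ℤ) : ℂ) * ((d : ℂ) * y) + ((d : ℤ) : ℂ) * ((e : ℂ) * z) := by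
      push_cast
      ring
    rw [h4]
    exact S.add_mem (S.mul_mem (hint _) h2) (S.mul_mem (hint _) h3)
  · rintro y z - - ⟨d, hd, h2⟩ ⟨e, he, h3⟩
    refine ⟨d * e, mul_ne_zero hd he, ?_⟩
    have h4 : ((d * e : ℕ) : ℂ) * (y * z) = ((d : ℂ) * y) * ((e : ℂ) * z) := by
      push_cast
      ring
    rw [h4]
    exact S.mul_mem h2 h3

/-- the roots of a monic integral polynomial modulo a prime ideal of the ring of all algebraic integers -/
lemma lift_root (g : ℤ[X]) (hg : g.Monic) (k : Type) [CommRing k] [IsDomain k]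
    (χ : integralClosure ℤ ℂ →+* k) (b : k) (hb : eval₂ (Int.castRingHom k) b g = 0) :
    ∃ y : integralClosure ℤ ℂ, aeval (y : ℂ) g = 0 ∧ χ y = b := by
  set m := (g.map (Int.castRingHom ℂ)).roots with hm
  have hgm : (g.map (Int.castRingHom ℂ)).Monic := hg.map _
  have hprod : (m.map (fun y => X - C y)).prod = g.map (Int.castRingHom ℂ) := by
    have h1 := (IsAlgClosed.splits (g.map (Int.castRingHom ℂ))).eq_prod_roots
    rw [hgm.leadingCoeff, C_1, one_mul] at h1
    exact h1.symm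
  have hroot : ∀ y ∈ m, aeval y g = 0 := by
    intro y hy
    rw [hm, mem_roots hgm.ne_zero, IsRoot.def, eval_map] at hy
    rw [aeval_def, ← hy]
    congr 1
  have hint : ∀ y ∈ m, y ∈ integralClosure ℤ ℂ := fun y hy => ⟨g, hg, by
    have := hroot y hy
    rwa [aeval_def] at this⟩
  obtain ⟨m', hm'⟩ : ∃ m' : Multiset (integralClosure ℤ ℂ),
      m'.map (fun y : integralClosure ℤ ℂ => (y : ℂ)) = m := by
    refine ⟨m.pmap (fun y hy => (⟨y, hy⟩ : integralClosure ℤ ℂ)) hint, ?_⟩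
    rw [Multiset.map_pmap]
    exact (Multiset.pmap_eq_map _ (fun a => a) _ _).trans (Multiset.map_id' _)
  have hA : (m'.map (fun y => X - C y)).prod = g.map (Int.castRingHom (integralClosure ℤ ℂ)) := by
    have hinj : Function.Injective (Polynomial.map (algebraMap (integralClosure ℤ ℂ) ℂ)) :=
      Polynomial.map_injective _ Subtype.coe_injective
    apply hinj
    rw [Polynomial.map_map, Polynomial.map_multiset_prod, Multiset.map_map]
    have h2 : ((algebraMap (integralClosure ℤ ℂ) ℂ).comp (Int.castRingHom (integralClosure ℤ ℂ))) =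
        Int.castRingHom ℂ := Subsingleton.elim _ _
    rw [h2, ← hprod, ← hm', Multiset.map_map]
    congr 1
    refine Multiset.map_congr rfl fun y _ => ?_
    simp only [Function.comp_apply, Polynomial.map_sub, map_X, map_C]
    rfl
  have hk : g.map (Int.castRingHom k) = (m'.map (fun y => X - C (χ y))).prod := by
    have h2 : χ.comp (Int.castRingHom (integralClosure ℤ ℂ)) = Int.castRingHom k :=
      Subsingleton.elim _ _
    rw [← h2, ← Polynomial.map_map, ← hA, Polynomial.map_multiset_prod, Multiset.map_map]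
    congr 1
    refine Multiset.map_congr rfl fun y _ => ?_
    simp
  rw [← eval_map, hk, eval_multiset_prod, Multiset.map_map] at hb
  rw [Multiset.prod_eq_zero_iff, Multiset.mem_map] at hb
  obtain ⟨y, hy, hyb⟩ := hb
  refine ⟨y, hroot _ (hm' ▸ Multiset.mem_map_of_mem _ hy), ?_⟩
  simp only [Function.comp_apply, eval_sub, eval_X, eval_C] at hyb
  exact (sub_eq_zero.mp hyb).symm

/-- the main step -/
lemma core_zeta (f : ℤ[X]) (hf : 1 ≤ f.natDegree) (q : ℕ) (hq : q.Prime)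
    (hR : RootsOfUnityCondition f q) : ∃ B : ℕ, B ≠ 0 ∧ ∀ (l : ℕ) [Fact l.Prime], ¬ l ∣ B →
    ∀ (k : Type) [CommRing k] [IsDomain k] [CharP k l] (χ : integralClosure ℤ ℂ →+* k) (m : ℕ)
    (x : ℂ) (y : integralClosure ℤ ℂ) (b : k), aeval x f = 0 → (y : ℂ) = f.leadingCoeff * x →
    χ y ^ (l ^ m) = χ y → b ^ (l ^ m) = b →
    eval₂ (Int.castRingHom k) b f.integralNormalization = 0 → b ≠ χ y → l ^ m % q = 1 := by
  classical
  have hf0 : f ≠ 0 := by
    rintro rfl
    simp at hf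
  have ha0 : f.leadingCoeff ≠ 0 := leadingCoeff_ne_zero.mpr hf0
  have haC : (f.leadingCoeff : ℂ) ≠ 0 := by exact_mod_cast ha0
  have halg : ∀ x : ℂ, aeval x f = 0 → IsAlgebraic ℚ x := by
    intro x hx
    refine ⟨f.map (Int.castRingHom ℚ), ?_, ?_⟩
    · rw [Ne, Polynomial.map_eq_zero_iff Int.cast_injective]
      exact hf0
    · rw [← hx]
      exact aeval_map_algebraMap ℚ x f
  -- the denominators
  have hD : ∀ x x' : ℂ, ∃ d : ℕ, d ≠ 0 ∧ (aeval x f = 0 → aeval x' f = 0 → x ≠ x' →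
      ∃ ζ : ℂ, IsPrimitiveRoot ζ q ∧
        (d : ℂ) * ζ ∈ Algebra.adjoin ℤ ({(f.leadingCoeff : ℂ) * x, (f.leadingCoeff : ℂ) * x'} : Set ℂ)) := by
    intro x x'
    by_cases h : aeval x f = 0 ∧ aeval x' f = 0 ∧ x ≠ x'
    · obtain ⟨ζ, h1, h2⟩ := hR x x' h.1 h.2.1 h.2.2
      obtain ⟨d, h3, h4⟩ := den x x' ζ f.leadingCoeff ha0 (halg x h.1) (halg x' h.2.1) h1
      exact ⟨d, h3, fun _ _ _ => ⟨ζ, h2, h4⟩⟩
    · exact ⟨1, one_ne_zero, fun h1 h2 h3 => absurd ⟨h1, h2, h3⟩ h⟩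
  choose dd hdd0 hdd using hD
  set Rt : Finset ℂ := (f.map (Int.castRingHom ℂ)).roots.toFinset with hRt
  have hmemR : ∀ x : ℂ, aeval x f = 0 → x ∈ Rt := by
    intro x hx
    rw [hRt, Multiset.mem_toFinset, mem_roots (by
      rw [Ne, Polynomial.map_eq_zero_iff Int.cast_injective]
      exact hf0), IsRoot.def, eval_map, ← hx, aeval_def]
    congr 1
  refine ⟨q * ∏ p ∈ Rt ×ˢ Rt, dd p.1 p.2, mul_ne_zero hq.ne_zero
    (Finset.prod_ne_zero_iff.mpr fun p _ => hdd0 _ _), ?_⟩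
  intro l hl hlB k _ _ _ χ m x y b hx hy hya hb hbg hne
  have hlq : ¬ l ∣ q := fun h => hlB (h.mul_right _)
  -- lift `b`
  obtain ⟨y', hy'1, hy'2⟩ := lift_root f.integralNormalization (monic_integralNormalization hf0) k χ b hbg
  set x' : ℂ := (y' : ℂ) / f.leadingCoeff with hx'
  have hyx' : (y' : ℂ) = f.leadingCoeff * x' := by
    rw [hx']
    field_simp
  have hfx' : aeval x' f = 0 := by
    have h1 := integralNormalization_eval₂_leadingCoeff_mul hf (algebraMap ℤ ℂ) x'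
    rw [aeval_def] at hy'1 ⊢
    have h2 : algebraMap ℤ ℂ f.leadingCoeff * x' = (y' : ℂ) := by
      rw [hyx']
      simp
    rw [h2, hy'1] at h1
    have h3 : algebraMap ℤ ℂ f.leadingCoeff ^ (f.natDegree - 1) ≠ 0 := by
      refine pow_ne_zero _ ?_
      simpa using haC
    exact (mul_eq_zero.mp h1.symm).resolve_left h3
  have hxx' : x ≠ x' := by
    intro h
    apply hne
    have : y = y' := Subtype.ext (by rw [hy, hyx', h])
    rw [this, hy'2]
  obtain ⟨ζ, hζ, hζ2⟩ := hdd x x' hx hfx' hxx'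
  have hld : ¬ l ∣ dd x x' := by
    intro h
    apply hlB
    refine Dvd.dvd.mul_left ?_ _
    exact h.trans (Finset.dvd_prod_of_mem (fun p : ℂ × ℂ => dd p.1 p.2)
      (Finset.mem_product.mpr ⟨hmemR x hx, hmemR x' hfx'⟩ : (x, x') ∈ Rt ×ˢ Rt))
  -- the invariance
  have hfr : ∀ s t : k, (s + t) ^ (l ^ m) = s ^ (l ^ m) + t ^ (l ^ m) := fun s t => by
    have := map_add (iterateFrobenius k l m) s t
    simpa only [iterateFrobenius_def] using this
  have hinv : ∀ z ∈ Algebra.adjoin ℤ ({(f.leadingCoeff : ℂ) * x, (f.leadingCoeff : ℂ) * x'} : Set ℂ),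
      ∃ h : z ∈ integralClosure ℤ ℂ, χ ⟨z, h⟩ ^ (l ^ m) = χ ⟨z, h⟩ := by
    intro z hz
    refine Algebra.adjoin_induction (p := fun z _ => ∃ h : z ∈ integralClosure ℤ ℂ,
      χ ⟨z, h⟩ ^ (l ^ m) = χ ⟨z, h⟩) ?_ ?_ ?_ ?_ hz
    · intro z hz
      rcases hz with rfl | hz
      · refine ⟨by rw [← hy]; exact y.2, ?_⟩
        have : (⟨(f.leadingCoeff : ℂ) * x, by rw [← hy]; exact y.2⟩ : integralClosure ℤ ℂ) = y :=
          Subtype.ext hy.symm
        rw [this]
        exact hya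
      · rw [Set.mem_singleton_iff] at hz
        subst hz
        refine ⟨by rw [← hyx']; exact y'.2, ?_⟩
        have : (⟨(f.leadingCoeff : ℂ) * x', by rw [← hyx']; exact y'.2⟩ : integralClosure ℤ ℂ) = y' :=
          Subtype.ext hyx'.symm
        rw [this, hy'2]
        exact hb
    · intro r
      refine ⟨(integralClosure ℤ ℂ).algebraMap_mem r, ?_⟩
      have h1 : (⟨algebraMap ℤ ℂ r, (integralClosure ℤ ℂ).algebraMap_mem r⟩ : integralClosure ℤ ℂ) =
          (r : integralClosure ℤ ℂ) := Subtype.ext (by simp)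
      rw [h1, map_intCast]
      have h2 := map_intCast (iterateFrobenius k l m) r
      rwa [iterateFrobenius_def] at h2
    · rintro z1 z2 - - ⟨h1, h2⟩ ⟨h3, h4⟩
      refine ⟨(integralClosure ℤ ℂ).add_mem h1 h3, ?_⟩
      have : (⟨z1 + z2, (integralClosure ℤ ℂ).add_mem h1 h3⟩ : integralClosure ℤ ℂ) =
          ⟨z1, h1⟩ + ⟨z2, h3⟩ := rfl
      rw [this, map_add, hfr, h2, h4]
    · rintro z1 z2 - - ⟨h1, h2⟩ ⟨h3, h4⟩
      refine ⟨(integralClosure ℤ ℂ).mul_mem h1 h3, ?_⟩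
      have : (⟨z1 * z2, (integralClosure ℤ ℂ).mul_mem h1 h3⟩ : integralClosure ℤ ℂ) =
          ⟨z1, h1⟩ * ⟨z2, h3⟩ := rfl
      rw [this, map_mul, mul_pow, h2, h4]
  have hζint : ζ ∈ integralClosure ℤ ℂ := hζ.isIntegral hq.pos
  set z : integralClosure ℤ ℂ := ⟨ζ, hζint⟩ with hz
  obtain ⟨h1, h2⟩ := hinv _ hζ2
  have h3 : (⟨(dd x x' : ℂ) * ζ, h1⟩ : integralClosure ℤ ℂ) = (dd x x' : integralClosure ℤ ℂ) * z :=
    Subtype.ext (by simp [hz])
  rw [h3, map_mul, map_natCast, mul_pow] at h2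
  have h4 : ((dd x x' : ℕ) : k) ^ (l ^ m) = (dd x x' : k) := by
    have h2 := map_natCast (iterateFrobenius k l m) (dd x x')
    rwa [iterateFrobenius_def] at h2
  rw [h4] at h2
  have h5 : ((dd x x' : ℕ) : k) ≠ 0 := fun h => hld ((CharP.cast_eq_zero_iff k l _).mp h)
  have h6 : χ z ^ (l ^ m) = χ z := mul_left_cancel₀ h5 h2
  -- the order of `χ z`
  have h7 : χ z ^ q = 1 := by
    rw [← map_pow]
    have : z ^ q = 1 := Subtype.ext (by
      have := hζ.pow_eq_one
      simpa [hz] using this)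
    rw [this, map_one]
  have h8 : χ z ≠ 1 := by
    intro h
    have h9 : ∑ i ∈ Finset.range q, z ^ i = 0 := Subtype.ext (by
      have := hζ.geom_sum_eq_zero hq.one_lt
      simpa [hz] using this)
    have h10 := congrArg χ h9
    rw [map_sum, map_zero] at h10
    simp only [map_pow, h, one_pow, Finset.sum_const, Finset.card_range, nsmul_eq_mul, mul_one] at h10
    exact hlq ((CharP.cast_eq_zero_iff k l _).mp h10)
  have h9 : χ z ≠ 0 := by
    intro h
    rw [h, zero_pow hq.ne_zero] at h7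
    exact zero_ne_one h7
  have : Fact q.Prime := ⟨hq⟩
  have h10 : orderOf (χ z) = q := orderOf_eq_prime h7 h8
  have hlm : 1 ≤ l ^ m := Nat.one_le_pow _ _ hl.out.pos
  have h11 : χ z ^ (l ^ m - 1) = 1 := by
    apply mul_right_cancel₀ h9
    rw [← pow_succ, Nat.sub_add_cancel hlm, one_mul, h6]
  have h12 : q ∣ l ^ m - 1 := h10 ▸ orderOf_dvd_of_pow_eq_one h11
  have h13 : 1 ≡ l ^ m [MOD q] := (Nat.modEq_iff_dvd' hlm).mpr h12
  have h14 : 1 % q = l ^ m % q := h13
  rw [← h14, Nat.mod_eq_of_lt hq.one_lt]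

section

variable {L : Type} [Field L] [NumberField L]

/-- an element fixed by the Frobenius is an integer modulo `v` -/
lemma int_of_pow {l : ℕ} (hl : l.Prime) {v : HeightOneSpectrum (𝓞 L)} (hv : Abv v l) (s : 𝓞 L)
    (hs : s ^ l - s ∈ v.asIdeal) : ∃ r : ℤ, s - (r : 𝓞 L) ∈ v.asIdeal := by
  have : Fact l.Prime := ⟨hl⟩
  have hmax : v.asIdeal.IsMaximal := v.isMaximal
  let _ : Field (𝓞 L ⧸ v.asIdeal) := Ideal.Quotient.field v.asIdeal
  have hc : CharP (𝓞 L ⧸ v.asIdeal) l := by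
    rw [CharP.charP_iff_prime_eq_zero hl, ← map_natCast (Ideal.Quotient.mk v.asIdeal)]
    exact Ideal.Quotient.eq_zero_iff_mem.mpr hv
  have h1 : (Ideal.Quotient.mk v.asIdeal s) ^ l = Ideal.Quotient.mk v.asIdeal s := by
    rw [← map_pow, Ideal.Quotient.eq]
    exact hs
  have h2 := (Subfield.mem_bot_iff_pow_eq_self (𝓞 L ⧸ v.asIdeal) l).mpr h1
  have h3 : ∀ z ∈ (⊥ : Subfield (𝓞 L ⧸ v.asIdeal)), ∃ r : ℤ, z = (r : 𝓞 L ⧸ v.asIdeal) := by
    have hle : (⊥ : Subfield (𝓞 L ⧸ v.asIdeal)) ≤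
        (ZMod.castHom (dvd_refl l) (𝓞 L ⧸ v.asIdeal)).fieldRange := bot_le
    intro z hz
    obtain ⟨w, hw⟩ := hle hz
    obtain ⟨r, rfl⟩ := ZMod.intCast_surjective w
    exact ⟨r, by rw [← hw]; simp⟩
  obtain ⟨r, hr⟩ := h3 _ h2
  refine ⟨r, ?_⟩
  rw [← Ideal.Quotient.eq, hr]
  simp

lemma pow_norm (v : HeightOneSpectrum (𝓞 L)) (s : 𝓞 L) :
    s ^ Ideal.absNorm v.asIdeal - s ∈ v.asIdeal := by
  have hmax : v.asIdeal.IsMaximal := v.isMaximal
  let _ : Field (𝓞 L ⧸ v.asIdeal) := Ideal.Quotient.field v.asIdeal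
  have h0 : Ideal.absNorm v.asIdeal ≠ 0 := by
    rw [Ne, Ideal.absNorm_eq_zero_iff]
    exact v.ne_bot
  have hc : Nat.card (𝓞 L ⧸ v.asIdeal) = Ideal.absNorm v.asIdeal := by
    rw [Ideal.absNorm_apply, Submodule.cardQuot_apply]
  have hfin : Finite (𝓞 L ⧸ v.asIdeal) := Nat.finite_of_card_ne_zero (by rw [hc]; exact h0)
  let _ : Fintype (𝓞 L ⧸ v.asIdeal) := Fintype.ofFinite _
  rw [← Ideal.Quotient.eq, map_pow, ← hc, Nat.card_eq_fintype_card]
  exact FiniteField.pow_card _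

/-- a prime ideal of the ring of the algebraic integers above `v` -/
lemma exists_res (v : HeightOneSpectrum (𝓞 L)) (φ : L →+* ℂ) :
    ∃ (k : Type) (_ : CommRing k) (_ : IsDomain k) (χ : integralClosure ℤ ℂ →+* k)
      (ψ : 𝓞 L →+* integralClosure ℤ ℂ), (∀ s : 𝓞 L, (ψ s : ℂ) = φ (s : L)) ∧
      ∀ s : 𝓞 L, χ (ψ s) = 0 ↔ s ∈ v.asIdeal := by
  have hmem : ∀ s : 𝓞 L, φ (s : L) ∈ integralClosure ℤ ℂ := fun s =>
    s.2.map φ.toIntAlgHom
  let ψ : 𝓞 L →+* integralClosure ℤ ℂ :=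
    (φ.comp (algebraMap (𝓞 L) L)).codRestrict (integralClosure ℤ ℂ) hmem
  have hψ : ∀ s : 𝓞 L, (ψ s : ℂ) = φ (s : L) := fun s => rfl
  let _ : Algebra (𝓞 L) (integralClosure ℤ ℂ) := ψ.toAlgebra
  have hint : Algebra.IsIntegral (𝓞 L) (integralClosure ℤ ℂ) := by
    refine ⟨fun a => ?_⟩
    have h1 : IsIntegral ℤ a := integralClosure.isIntegral a
    obtain ⟨p, hp, hp2⟩ := h1
    refine ⟨p.map (Int.castRingHom (𝓞 L)), hp.map _, ?_⟩
    rw [eval₂_map, ← hp2]
    congr 1
    exact Subsingleton.elim _ _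
  have hprime : v.asIdeal.IsPrime := v.isPrime
  obtain ⟨Q, hQ, hQ2⟩ := Ideal.exists_ideal_over_prime_of_isIntegral_of_isDomain
    (S := integralClosure ℤ ℂ) v.asIdeal (by
      intro s hs
      rw [RingHom.mem_ker] at hs
      have h1 : φ (s : L) = 0 := by
        rw [← hψ]
        have : ψ s = 0 := hs
        rw [this]
        rfl
      have h2 : (s : L) = 0 := (map_eq_zero φ).mp h1
      have h3 : s = 0 := RingOfIntegers.coe_eq_zero_iff.mp h2
      rw [h3]
      exact v.asIdeal.zero_mem)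
  refine ⟨integralClosure ℤ ℂ ⧸ Q, inferInstance, inferInstance, Ideal.Quotient.mk Q, ψ, hψ, ?_⟩
  intro s
  rw [Ideal.Quotient.eq_zero_iff_mem, ← hQ2, Ideal.mem_comap]
  rfl

end

theorem zeta : S_ZETA := by
  intro f q hq hR L _ _ θ hs
  obtain ⟨B1, hB1, hlc, hroot⟩ := Pool.Agent.Q239.EL.root Pool.Agent.Q91.EL.ram f L θ hs
  have hf : 1 ≤ f.natDegree := by
    rw [← hs.deg]
    exact Module.finrank_pos
  obtain ⟨B2, hB2, hcore⟩ := core_zeta f hf q hq hR
  refine ⟨B1 * B2, mul_ne_zero hB1 hB2, fun l hl hlB => ?_⟩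
  have hlB1 : ¬ l ∣ B1 := fun h => hlB (h.mul_right _)
  have hlB2 : ¬ l ∣ B2 := fun h => hlB (h.mul_left _)
  have : Fact l.Prime := ⟨hl⟩
  obtain ⟨-, hxw⟩ := hroot l hl hlB1
  have ha : ¬ (l : ℤ) ∣ f.leadingCoeff := fun h => hlB1 (by exact_mod_cast h.trans hlc)
  have hint : IsIntegral ℤ ((f.leadingCoeff : L) * θ) := by
    have h1 : IsIntegral ℤ (f.leadingCoeff • θ) := isIntegral_leadingCoeff_smul f θ hs.root
    rwa [zsmul_eq_mul] at h1
  obtain ⟨t, ht⟩ : ∃ t : 𝓞 L, (t : L) = (f.leadingCoeff : L) * θ := ⟨⟨_, hint⟩, rfl⟩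
  -- the primes containing `t - r`
  have huniq : ∀ r : ℤ, ∀ v v' : HeightOneSpectrum (𝓞 L), Abv v l → Abv v' l →
      t - (r : 𝓞 L) ∈ v.asIdeal → t - (r : 𝓞 L) ∈ v'.asIdeal →
      v = v' ∧ Ideal.absNorm v.asIdeal = l := by
    intro r v v' hv hv' h1 h2
    have hlt : ∀ v : HeightOneSpectrum (𝓞 L), t - (r : 𝓞 L) ∈ v.asIdeal →
        v.valuation L ((r : L) - (f.leadingCoeff : ℤ) * θ) < 1 := by
      intro v h
      have h3 : v.valuation L ((t - (r : 𝓞 L) : 𝓞 L) : L) < 1 :=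
        (HeightOneSpectrum.valuation_lt_one_iff_mem (K := L) v (t - (r : 𝓞 L))).mpr h
      have h4 : ((t - (r : 𝓞 L) : 𝓞 L) : L) = -((r : L) - (f.leadingCoeff : ℤ) * θ) := by
        have h5 : ((t - (r : 𝓞 L) : 𝓞 L) : L) = (t : L) - (((r : 𝓞 L)) : L) :=
          map_sub (algebraMap (𝓞 L) L) _ _
        rw [h5, ht, int_coe]
        ring
      rwa [h4, Valuation.map_neg] at h3
    rcases hxw r f.leadingCoeff (Or.inr ha) with h | ⟨v0, h3, h4, -, -, h5⟩
    · exact absurd (h v hv) (hlt v h1).ne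
    · have e1 : v = v0 := by
        by_contra hne
        exact absurd (h5 v hv hne) (hlt v h1).ne
      have e2 : v' = v0 := by
        by_contra hne
        exact absurd (h5 v' hv' hne) (hlt v' h2).ne
      rw [e1, e2]
      exact ⟨rfl, h4⟩
  -- the polynomial of `t`
  have hgt : eval₂ (Int.castRingHom (𝓞 L)) t f.integralNormalization = 0 := by
    apply RingOfIntegers.coe_injective
    have h1 := integralNormalization_eval₂_eq_zero (p := f) (algebraMap ℤ L) (z := θ) (by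
      rw [← aeval_def]
      exact hs.root) (fun x hx => by simpa using hx)
    have h2 := Polynomial.hom_eval₂ f.integralNormalization (Int.castRingHom (𝓞 L)) (algebraMap (𝓞 L) L) t
    have h3 : (algebraMap (𝓞 L) L).comp (Int.castRingHom (𝓞 L)) = algebraMap ℤ L :=
      Subsingleton.elim _ _
    rw [h3] at h2
    have h4 : algebraMap (𝓞 L) L t = algebraMap ℤ L f.leadingCoeff * θ := by
      have : algebraMap (𝓞 L) L t = (t : L) := rfl
      rw [this, ht]
      simp
    rw [h4, h1] at h2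
    exact h2
  have φ : L →+* ℂ := Classical.choice inferInstance
  have hstep : ∀ v : HeightOneSpectrum (𝓞 L), Abv v l → ∀ (b : 𝓞 L),
      b ^ Ideal.absNorm v.asIdeal - b ∈ v.asIdeal →
      eval₂ (Int.castRingHom (𝓞 L)) b f.integralNormalization ∈ v.asIdeal → b - t ∉ v.asIdeal →
      Ideal.absNorm v.asIdeal % q = 1 := by
    intro v hv b hb1 hb2 hb3
    obtain ⟨p, m, hp, hpv, hm, hnorm⟩ := below v
    have hpl : p = l := prime_unique hp hl hpv hv
    subst hpl
    obtain ⟨k, _, _, χ, ψ, hψ, hχ⟩ := exists_res v φ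
    have hchar : CharP k p := by
      rw [CharP.charP_iff_prime_eq_zero hl]
      have := (hχ (p : 𝓞 L)).mpr hv
      simpa using this
    have hfix : ∀ s : 𝓞 L, χ (ψ s) ^ (p ^ m) = χ (ψ s) := by
      intro s
      have h1 := (hχ _).mpr (pow_norm v s)
      rw [hnorm, map_sub, map_sub, map_pow, map_pow, sub_eq_zero] at h1
      exact h1
    rw [hnorm]
    refine hcore p hlB2 k χ m (φ θ) (ψ t) (χ (ψ b)) ?_ ?_ (hfix t) (hfix b) ?_ ?_
    · have h1 := congrArg φ hs.root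
      rw [map_zero, aeval_def, Polynomial.hom_eval₂] at h1
      rw [aeval_def, ← h1]
      congr 1
      exact Subsingleton.elim _ _
    · rw [hψ, ht, map_mul, map_intCast]
    · have h1 := (hχ _).mpr hb2
      rw [Polynomial.hom_eval₂, Polynomial.hom_eval₂] at h1
      rw [← h1]
      congr 1
      exact Subsingleton.elim _ _
    · intro h
      apply hb3
      rw [← hχ, map_sub, map_sub, h, sub_self]
  refine ⟨?_, ?_⟩
  · intro v hv hN
    refine hstep v hv (t ^ l) (pow_norm v _) ?_ ?_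
    · -- Frobenius
      have hmax : v.asIdeal.IsMaximal := v.isMaximal
      let _ : Field (𝓞 L ⧸ v.asIdeal) := Ideal.Quotient.field v.asIdeal
      have hc : CharP (𝓞 L ⧸ v.asIdeal) l := by
        rw [CharP.charP_iff_prime_eq_zero hl, ← map_natCast (Ideal.Quotient.mk v.asIdeal)]
        exact Ideal.Quotient.eq_zero_iff_mem.mpr hv
      rw [← Ideal.Quotient.eq_zero_iff_mem, Polynomial.hom_eval₂, map_pow]
      have h1 := Polynomial.hom_eval₂ f.integralNormalization (Int.castRingHom (𝓞 L))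
        ((frobenius (𝓞 L ⧸ v.asIdeal) l).comp (Ideal.Quotient.mk v.asIdeal)) t
      rw [hgt, map_zero, RingHom.comp_apply, frobenius_def] at h1
      rw [h1]
      congr 1
      exact Subsingleton.elim _ _
    · intro h
      obtain ⟨r, hr⟩ := int_of_pow hl hv t h
      exact hN (huniq r v v hv hv hr hr).2
  · intro v v0 hv hv0 hne hN hN0
    have h1 : t ^ l - t ∈ v.asIdeal := by
      have := pow_norm v t
      rwa [hN] at this
    have h2 : t ^ l - t ∈ v0.asIdeal := by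
      have := pow_norm v0 t
      rwa [hN0] at this
    obtain ⟨r, hr⟩ := int_of_pow hl hv t h1
    obtain ⟨r', hr'⟩ := int_of_pow hl hv0 t h2
    have h3 := hstep v hv (r' : 𝓞 L) (pow_norm v _) ?_ ?_
    · rwa [hN] at h3
    · -- `l` divides the value at `r'`
      have h4 : eval₂ (Int.castRingHom (𝓞 L)) (r' : 𝓞 L) f.integralNormalization =
          ((f.integralNormalization.eval r' : ℤ) : 𝓞 L) := by
        have := Polynomial.hom_eval₂ f.integralNormalization (RingHom.id ℤ) (Int.castRingHom (𝓞 L)) r'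
        rw [RingHom.comp_id] at this
        simpa [eval₂_id] using this.symm
      rw [h4]
      have h5 : ((f.integralNormalization.eval r' : ℤ) : 𝓞 L) ∈ v0.asIdeal := by
        rw [← h4, ← Ideal.Quotient.eq_zero_iff_mem, Polynomial.hom_eval₂]
        have h6 : Ideal.Quotient.mk v0.asIdeal (r' : 𝓞 L) = Ideal.Quotient.mk v0.asIdeal t :=
          (Ideal.Quotient.eq.mpr hr').symm
        rw [h6, ← Polynomial.hom_eval₂, hgt, map_zero]
      have h6 := (int_mem_iff hl hv0 _).mp h5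
      exact (int_mem_iff hl hv _).mpr h6
    · intro h4
      have h5 : ((r' - r : ℤ) : 𝓞 L) ∈ v.asIdeal := by
        have : ((r' - r : ℤ) : 𝓞 L) = ((r' : 𝓞 L) - t) + (t - (r : 𝓞 L)) := by
          push_cast
          ring
        rw [this]
        exact v.asIdeal.add_mem h4 hr
      have h6 := (int_mem_iff hl hv _).mp h5
      have h7 : ((r' - r : ℤ) : 𝓞 L) ∈ v0.asIdeal := (int_mem_iff hl hv0 _).mpr h6
      have h8 : t - (r : 𝓞 L) ∈ v0.asIdeal := by
        have : t - (r : 𝓞 L) = (t - (r' : 𝓞 L)) + ((r' - r : ℤ) : 𝓞 L) := by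
          push_cast
          ring
        rw [this]
        exact v0.asIdeal.add_mem hr' h7
      exact hne (huniq r v v0 hv hv0 hr h8).1

end Pool.Agent.Q277.SE
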